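import Mathlib
import Pool.Agent.W980.GR.Core
import Pool.Agent.W980.GR.Out
import Pool.Agent.W980.GC.Main

/-!
Coupled graphs for parallel machines, with an explicit dependence of the constant on the gap
(after `Pool.Agent.W980.GR.Main` and `Pool.Agent.W980.GT.Main`).
-/

set_option linter.unusedSectionVars false

namespace Pool.Agent.R943.TR

open Finset DomAC0 SmallDepth H592R3 Pool.Agent.H72.Clq Pool.Agent.W980.GC Pool.Agent.W980.GR
open Pool.Agent.W964.Pram hiding push push_sum push_total push_nonneg push_ne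

open Classical in
theorem gap_coupled_explicit : ∃ A : ℕ, 1 ≤ A ∧ ∀ δ : ℝ, 0 < δ → δ ≤ 1 →
    ∃ C : ℕ, 1 ≤ C ∧ (C : ℝ) ≤ A / δ ∧
    ∀ T k n : ℕ, 1 ≤ T → C ≤ k → (C * T * k) ^ (C * T) ≤ n →
      ∃ (Λ : Type) (_ : Fintype Λ) (μ : Λ → ℝ) (G₀ G₁ : Λ → SimpleGraph (Fin n)),
        (∀ l, 0 ≤ μ l) ∧ ∑ l, μ l = 1 ∧ (∀ l, ¬ (G₁ l).CliqueFree k) ∧
        (∑ l, μ l * (if CliquesLe (δ * k) (G₀ l) then 0 else 1)) ≤ (n : ℝ) ^ (-((k : ℝ) / C)) ∧
        ∀ P K : ℕ, (P : ℝ) ≤ (n : ℝ) ^ ((k : ℝ) / C) → (K : ℝ) ≤ (n : ℝ) ^ ((k : ℝ) / C) →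
          ∀ M : Machine (Pairs n) P, M.Lists K →
            ∑ l, μ l * (if M.answer T (adjBits (G₀ l)) ≠ M.answer T (adjBits (G₁ l))
              then 1 else 0) ≤ (n : ℝ) ^ (-(1 / (C : ℝ))) := by
  obtain ⟨G0, hG0⟩ : ∃ G0 : ℕ, G0 = 2 ^ 2690 := ⟨_, rfl⟩
  have hpar := fun (t D k n C : ℕ) (ht1 : 1 ≤ t) => clq_paramsM t C D k n G0 ht1 hG0
  clear hG0
  refine ⟨6 * (G0 + 240002), by omega, ?_⟩
  intro δ hδ hδ1
  obtain ⟨t, ht⟩ : ∃ t : ℕ, t = ⌈5 / (δ / 2)⌉₊ := ⟨_, rfl⟩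
  have htδ : 5 ≤ (t : ℝ) * (δ / 2) := by
    have h1 : 5 / (δ / 2) ≤ (t : ℝ) := by rw [ht]; exact Nat.le_ceil _
    rwa [div_le_iff₀ (by positivity)] at h1
  have htu : (t : ℝ) ≤ 11 / δ := by
    have h1 : (t : ℝ) ≤ 5 / (δ / 2) + 1 := by
      rw [ht]; exact (Nat.ceil_lt_add_one (by positivity)).le
    have h2 : (1 : ℝ) ≤ 1 / δ := by rw [le_div_iff₀ hδ]; linarith
    have h3 : 5 / (δ / 2) = 10 * (1 / δ) := by field_simp; ring
    have h4 : 11 / δ = 11 * (1 / δ) := by ring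
    rw [h3] at h1
    rw [h4]
    linarith
  have ht1 : 1 ≤ t := by
    rcases Nat.eq_zero_or_pos t with h | h
    · rw [h] at htδ; norm_num at htδ
    · exact h
  obtain ⟨V, hV⟩ : ∃ V : ℕ, V = 1212 * t + 1 := ⟨_, rfl⟩
  obtain ⟨C0, hC0'⟩ : ∃ C0 : ℕ, C0 = G0 + 9697 * t + 10 * V + ⌈2 / δ⌉₊ + 2 := ⟨_, rfl⟩
  obtain ⟨C, hC⟩ : ∃ C : ℕ, C = 6 * C0 := ⟨_, rfl⟩
  have hCA : (C : ℝ) ≤ ((6 * (G0 + 240002) : ℕ) : ℝ) / δ := by
    have h2 : (1 : ℝ) ≤ 1 / δ := by rw [le_div_iff₀ hδ]; linarith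
    have h3 : (⌈2 / δ⌉₊ : ℝ) ≤ 2 / δ + 1 := (Nat.ceil_lt_add_one (by positivity)).le
    have h4 : 11 / δ = 11 * (1 / δ) := by ring
    have h5 : 2 / δ = 2 * (1 / δ) := by ring
    have h6 : (G0 : ℝ) ≤ G0 * (1 / δ) := le_mul_of_one_le_right (Nat.cast_nonneg _) h2
    rw [hC, hC0', hV]
    push_cast
    rw [h4] at htu
    rw [h5] at h3 ⊢
    have h7 : 6 * ((G0 : ℝ) + 240002) / δ = 6 * (G0 * (1 / δ) + 240002 * (1 / δ)) := by ring
    rw [h7]
    linarith
  have hC1 : 1 ≤ C := by omega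
  have hCV : 10 * V ≤ C := by omega
  have hCδ : 2 / δ ≤ (C : ℝ) := by
    refine (Nat.le_ceil _).trans ?_
    exact_mod_cast (by omega : ⌈2 / δ⌉₊ ≤ C)
  have hCR : (1 : ℝ) ≤ C := by exact_mod_cast hC1
  have hC0 : (0 : ℝ) < C := by linarith
  have hVR : (10 : ℝ) * V ≤ C := by exact_mod_cast hCV
  refine ⟨C, hC1, hCA, ?_⟩
  intro T k n hT hk hn
  obtain ⟨D, hD⟩ : ∃ D : ℕ, D = 3 * (T + 1) := ⟨_, rfl⟩
  obtain ⟨b, m', hb70, hm5, hm1, hm3, hA, hn1, hn2⟩ := hpar t D k n C0 ht1 (by omega) (by omega)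
    (by omega) (by
      refine le_trans ?_ hn
      have h1 : C0 * D ≤ C * T := by
        rw [hC]
        calc C0 * D ≤ C0 * (6 * T) := Nat.mul_le_mul_left _ (by omega)
          _ = 6 * C0 * T := by ring
      have h2 : 1 ≤ C * T * k := Nat.one_le_iff_ne_zero.2 (by
        have : C ≠ 0 := by omega
        have : T ≠ 0 := by omega
        have : k ≠ 0 := by omega
        positivity)
      calc (C0 * D * k) ^ (C0 * D) ≤ (C * T * k) ^ (C0 * D) :=
            Nat.pow_le_pow_left (Nat.mul_le_mul_right _ h1) _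
        _ ≤ (C * T * k) ^ (C * T) := Nat.pow_le_pow_right h2 h1)
  have hkR : (C : ℝ) ≤ k := by exact_mod_cast hk
  have hk0 : (0 : ℝ) < k := by linarith
  have hnpos : (1 : ℝ) ≤ n := by
    have h0 : 1 ≤ n := by
      refine le_trans ?_ hn
      exact Nat.one_le_pow _ _ (by
        have : 0 < C * T := Nat.mul_pos (by omega) (by omega)
        exact Nat.mul_pos this (by omega))
    exact_mod_cast h0
  have hn0 : (0 : ℝ) < n := by linarith
  -- powers of two
  obtain ⟨q, hq⟩ : ∃ q : ℝ, q = ((D * b : ℕ) : ℝ) := ⟨_, rfl⟩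
  have hq70 : 70 ≤ q := by
    rw [hq]
    exact_mod_cast (le_trans (le_trans (by norm_num : 70 ≤ 42752) hb70)
      (Nat.le_mul_of_pos_left b (by omega)))
  have hpow : ∀ y : ℝ, 0 ≤ y → (n : ℝ) ^ y ≤ 2 ^ (q * V * y) := by
    intro y hy
    have h1 : (n : ℝ) ≤ (2 : ℝ) ^ (q * V) := by
      have h2 : (n : ℝ) ≤ (((2 ^ (D * b)) ^ (1212 * t + 1) : ℕ) : ℝ) := by
        exact_mod_cast hn2
      refine h2.trans (le_of_eq ?_)
      rw [← hV, hq, ← Nat.cast_mul, Real.rpow_natCast, Nat.cast_pow, Nat.cast_pow,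
        Nat.cast_ofNat, ← pow_mul]
    calc (n : ℝ) ^ y ≤ ((2 : ℝ) ^ (q * V)) ^ y := Real.rpow_le_rpow hn0.le h1 hy
      _ = 2 ^ (q * V * y) := by rw [← Real.rpow_mul (by norm_num)]
  have hVk : (V : ℝ) * ((k : ℝ) / C) ≤ k / 10 := by
    rw [mul_div_assoc', div_le_div_iff₀ hC0 (by norm_num)]
    nlinarith
  have hnk : (n : ℝ) ^ ((k : ℝ) / C) ≤ 2 ^ (q * (k / 10)) := by
    refine (hpow _ (by positivity)).trans ?_
    apply Real.rpow_le_rpow_of_exponent_le (by norm_num)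
    rw [mul_assoc]
    exact mul_le_mul_of_nonneg_left hVk (by linarith)
  have hnC : (n : ℝ) ^ (1 / (C : ℝ)) ≤ 2 ^ (q / 10) := by
    refine (hpow _ (by positivity)).trans ?_
    apply Real.rpow_le_rpow_of_exponent_le (by norm_num)
    have h1 : (V : ℝ) * (1 / C) ≤ 1 / 10 := by
      rw [mul_one_div, div_le_div_iff₀ hC0 (by norm_num)]
      linarith
    calc q * V * (1 / C) = q * (V * (1 / C)) := by ring
      _ ≤ q * (1 / 10) := mul_le_mul_of_nonneg_left h1 (by linarith)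
      _ = q / 10 := by ring
  have hx : ((((2 * 12 - 12) * (D * b * m') : ℕ)) : ℝ) = q * (12 * m') := by
    rw [hq]; push_cast; ring
  have hm1R : (k : ℝ) ≤ 12 * m' := by exact_mod_cast hm1
  have hm3R : (12 : ℝ) * m' ≤ 2 * k := by exact_mod_cast hm3
  have hc : 1 ≤ δ / 2 * ((12 * m' : ℕ) : ℝ) := by
    push_cast
    have h1 : 2 / δ ≤ k := hCδ.trans hkR
    rw [div_le_iff₀ hδ] at h1
    nlinarith
  have hE : E1 12 = 1336 := rfl
  obtain ⟨Λ, hΛ, μ, G₀, G₁, p0, p1, hsat, hgap, hadv⟩ := core_coupled t (δ / 2) htδ T D m' b n hD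
    hm5 (by omega) hA (pow_four' b hb70) (by nlinarith) (by omega) hn1 hc
  refine ⟨Λ, hΛ, μ, G₀, G₁, p0, p1, fun l h => hsat l (h.mono hm1), ?_, ?_⟩
  · calc (∑ l, μ l * (if CliquesLe (δ * k) (G₀ l) then (0 : ℝ) else 1))
        ≤ ∑ l, μ l * (if CliquesLe (δ / 2 * ((12 * m' : ℕ) : ℝ)) (G₀ l) then (0 : ℝ) else 1) := by
          refine Finset.sum_le_sum fun l _ => ?_
          apply mul_le_mul_of_nonneg_left _ (p0 l)
          by_cases hG : CliquesLe (δ / 2 * ((12 * m' : ℕ) : ℝ)) (G₀ l)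
          · have : CliquesLe (δ * k) (G₀ l) := by
              intro S hS
              refine (hG S hS).trans ?_
              push_cast
              nlinarith
            rw [if_pos this, if_pos hG]
          · rw [if_neg hG]
            split_ifs <;> norm_num
      _ ≤ _ := hgap
      _ = 2 ^ (-(q * (12 * m') / 10)) := by rw [hx]
      _ ≤ 2 ^ (-(q * (k / 10))) := by
          apply Real.rpow_le_rpow_of_exponent_le (by norm_num)
          have := mul_le_mul_of_nonneg_left hm1R (by linarith : (0 : ℝ) ≤ q)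
          linarith
      _ ≤ (n : ℝ) ^ (-((k : ℝ) / C)) := by
          rw [Real.rpow_neg (by norm_num), Real.rpow_neg hn0.le]
          exact inv_anti₀ (by positivity) hnk
  · intro P K hP hK M hM
    have h5k : ∀ S : ℕ, (S : ℝ) ≤ (n : ℝ) ^ ((k : ℝ) / C) → (S : ℝ) ≤ 2 ^ (q * (k / 5)) := by
      intro S hS
      refine (hS.trans hnk).trans ?_
      apply Real.rpow_le_rpow_of_exponent_le (by norm_num)
      apply mul_le_mul_of_nonneg_left _ (by linarith)
      linarith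
    have hlist : K ≤ 2 ^ (2 * 12 ^ 2 * (D * b * m')) := by
      have h5 : (K : ℝ) ≤ ((2 ^ (2 * 12 ^ 2 * (D * b * m')) : ℕ) : ℝ) := by
        push_cast
        rw [← Real.rpow_natCast]
        refine (h5k K hK).trans ?_
        apply Real.rpow_le_rpow_of_exponent_le (by norm_num)
        have h7 : (((288 * (D * b * m') : ℕ)) : ℝ) = q * (288 * m') := by
          rw [hq]; push_cast; ring
        rw [h7]
        apply mul_le_mul_of_nonneg_left _ (by linarith)
        linarith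
      exact_mod_cast h5
    have hsize : P + Fintype.card (Pairs n) ≤ 2 ^ ((2 * 12 - 12) * (D * b * m')) := by
      have h1 : (Fintype.card (Pairs n) : ℝ) ≤ 2 ^ (q * (k / 5)) := by
        have h2 : (Fintype.card (Pairs n) : ℝ) ≤ (n : ℝ) ^ (2 : ℝ) := by
          rw [show (2 : ℝ) = ((2 : ℕ) : ℝ) by norm_num, Real.rpow_natCast]
          exact_mod_cast card_pairsM n
        refine (h2.trans (hpow 2 (by norm_num))).trans ?_
        apply Real.rpow_le_rpow_of_exponent_le (by norm_num)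
        have h3 : (V : ℝ) * 2 ≤ k / 5 := by linarith
        calc q * V * 2 = q * (V * 2) := by ring
          _ ≤ q * (k / 5) := mul_le_mul_of_nonneg_left h3 (by linarith)
      have h4 : (P : ℝ) ≤ 2 ^ (q * (k / 5)) := h5k P hP
      have h5 : ((P + Fintype.card (Pairs n) : ℕ) : ℝ) ≤
          ((2 ^ ((2 * 12 - 12) * (D * b * m')) : ℕ) : ℝ) := by
        push_cast
        rw [← Real.rpow_natCast]
        have h6 : (2 : ℝ) ^ (q * (k / 5)) + 2 ^ (q * (k / 5)) = 2 ^ (q * (k / 5) + 1) := by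
          rw [Real.rpow_add (by norm_num), Real.rpow_one]; ring
        calc (P : ℝ) + Fintype.card (Pairs n) ≤ 2 ^ (q * (k / 5)) + 2 ^ (q * (k / 5)) :=
              add_le_add h4 h1
          _ = 2 ^ (q * (k / 5) + 1) := h6
          _ ≤ 2 ^ (((12 * (D * b * m') : ℕ)) : ℝ) := by
              apply Real.rpow_le_rpow_of_exponent_le (by norm_num)
              have h7 : (((12 * (D * b * m') : ℕ)) : ℝ) = q * (12 * m') := by
                rw [hq]; push_cast; ring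
              rw [h7]
              have h8 := mul_le_mul_of_nonneg_left hm1R (by linarith : (0 : ℝ) ≤ q)
              have h9 : 1 ≤ q * k := by nlinarith
              nlinarith
      exact_mod_cast h5
    refine (hadv P K M hM hlist hsize).trans ?_
    rw [Real.rpow_neg hn0.le, ← one_div, div_le_div_iff₀ (by positivity) (by positivity), one_mul]
    have h1 : ((2 : ℝ) ^ (D * b)) = 2 ^ q := by rw [hq, Real.rpow_natCast]
    rw [h1]
    have h2 : (2 : ℝ) ^ q = 2 ^ (q / 10) * 2 ^ (9 * q / 10) := by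
      rw [← Real.rpow_add (by norm_num)]; congr 1; ring
    have h3 : (3 : ℝ) ≤ 2 ^ (9 * q / 10) := by
      calc (3 : ℝ) ≤ 2 ^ (2 : ℝ) := by norm_num
        _ ≤ 2 ^ (9 * q / 10) := Real.rpow_le_rpow_of_exponent_le (by norm_num) (by linarith)
    rw [h2]
    calc 3 * (n : ℝ) ^ (1 / (C : ℝ)) ≤ 2 ^ (9 * q / 10) * 2 ^ (q / 10) :=
          mul_le_mul h3 hnC (by positivity) (by positivity)
      _ = _ := mul_comm _ _

end Pool.Agent.R943.TR
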