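import Mathlib
import Pool.Agent.R943.TR.Coup
import Pool.Agent.W980.GR.Red

/-!
Few output bits, with an explicit dependence of the constant on the gap
(after `Pool.Agent.W980.GR.Red`).
-/

set_option linter.unusedSectionVars false

namespace Pool.Agent.R943.TR

open Finset DomAC0 Filter Topology Pool.Agent.H72.Clq Pool.Agent.W980.GC Pool.Agent.W980.GR
open Pool.Agent.W964.Pram hiding push push_sum push_total push_nonneg push_ne

open Classical in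
/-- Few output bits. -/
theorem gap_output_explicit : ∃ A : ℕ, 1 ≤ A ∧ ∀ δ : ℝ, 0 < δ → δ ≤ 1 →
    ∃ C : ℕ, 1 ≤ C ∧ (C : ℝ) ≤ A / δ ∧
    ∀ T k n : ℕ, 1 ≤ T → C ≤ k → (C * T * k) ^ (C * T) ≤ n →
      ∃ (Λ : Type) (_ : Fintype Λ) (μ : Λ → ℝ) (G₀ G₁ : Λ → SimpleGraph (Fin n)),
        (∀ l, 0 ≤ μ l) ∧ ∑ l, μ l = 1 ∧ (∀ l, ¬ (G₁ l).CliqueFree k) ∧
        (∑ l, μ l * (if CliquesLe (δ * k) (G₀ l) then 0 else 1)) ≤ (n : ℝ) ^ (-((k : ℝ) / C)) ∧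
        ∀ P K : ℕ, (P : ℝ) ≤ (n : ℝ) ^ ((k : ℝ) / C) → (K : ℝ) ≤ (n : ℝ) ^ ((k : ℝ) / C) →
          ∀ (I : Type) [Fintype I],
          (∀ R : OutMachine (Pairs n) P I, R.Lists K →
            ∑ l, μ l * (if R.output T (adjBits (G₀ l)) ≠ R.output T (adjBits (G₁ l))
              then 1 else 0) ≤ (Fintype.card I : ℝ) * (n : ℝ) ^ (-(1 / (C : ℝ)))) ∧
          ∀ (Ω : Type) [Fintype Ω] (w : Ω → ℝ), (∀ r, 0 ≤ w r) → ∑ r, w r = 1 →
            ∀ (R : Ω → OutMachine (Pairs n) P I) (dec : Ω → (I → Bool) → Bool),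
            (∀ r, (R r).Lists K) → ∃ G : SimpleGraph (Fin n),
              (¬ G.CliqueFree k ∧ prAns w R dec T (adjBits G) true ≤
                1 / 2 + ((Fintype.card I : ℝ) + 1) * (n : ℝ) ^ (-(1 / (C : ℝ)))) ∨
              (CliquesLe (δ * k) G ∧ prAns w R dec T (adjBits G) false ≤
                1 / 2 + ((Fintype.card I : ℝ) + 1) * (n : ℝ) ^ (-(1 / (C : ℝ)))) := by
  obtain ⟨A, hA1, HA⟩ := gap_coupled_explicit
  refine ⟨2 * A, by omega, ?_⟩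
  intro δ hδ hδ1
  obtain ⟨C₁, hC₁, hCA₁, H⟩ := HA δ hδ hδ1
  obtain ⟨C, hC⟩ : ∃ C : ℕ, C = 2 * C₁ := ⟨_, rfl⟩
  have hC1 : 1 ≤ C := by omega
  have hCR : (1 : ℝ) ≤ C := by exact_mod_cast hC1
  have hC0 : (0 : ℝ) < C := by linarith
  have hC₁R : (0 : ℝ) < C₁ := by exact_mod_cast (by omega : 0 < C₁)
  have hCC : (C : ℝ) = 2 * C₁ := by rw [hC]; push_cast; ring
  have hCA : (C : ℝ) ≤ ((2 * A : ℕ) : ℝ) / δ := by
    rw [hCC]
    push_cast
    calc (2 : ℝ) * C₁ ≤ 2 * (A / δ) := by linarith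
      _ = 2 * A / δ := by ring
  refine ⟨C, hC1, hCA, ?_⟩
  intro T k n hT hk hn
  have hbase : 2 ≤ C * T * k := by
    calc 2 ≤ C := by omega
      _ ≤ C * T := Nat.le_mul_of_pos_right _ (by omega)
      _ ≤ C * T * k := Nat.le_mul_of_pos_right _ (by omega)
  have hn2 : 2 ≤ n := by
    refine le_trans hbase (le_trans (Nat.le_self_pow ?_ _) hn)
    have : 0 < C * T := Nat.mul_pos (by omega) (by omega)
    omega
  have hnR : (2 : ℝ) ≤ n := by exact_mod_cast hn2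
  have hn0 : (0 : ℝ) < n := by linarith
  have hn1 : (1 : ℝ) ≤ n := by linarith
  have hkC : (C : ℝ) ≤ k := by exact_mod_cast hk
  have hk0 : (0 : ℝ) < k := by linarith
  obtain ⟨Λ, hΛ, μ, G₀, G₁, p0, p1, hsat, hgap, hadv⟩ := H (T + 1) k n (by omega) (by omega) (by
    refine le_trans ?_ hn
    have h1 : C₁ * (T + 1) ≤ C * T := by
      rw [hC]
      calc C₁ * (T + 1) ≤ C₁ * (2 * T) := Nat.mul_le_mul_left _ (by omega)
        _ = 2 * C₁ * T := by ring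
    calc (C₁ * (T + 1) * k) ^ (C₁ * (T + 1)) ≤ (C * T * k) ^ (C₁ * (T + 1)) :=
          Nat.pow_le_pow_left (Nat.mul_le_mul_right _ h1) _
      _ ≤ (C * T * k) ^ (C * T) := Nat.pow_le_pow_right (by omega) h1)
  have hone : (n : ℝ) ^ (-(1 / (C₁ : ℝ))) ≤ (n : ℝ) ^ (-(1 / (C : ℝ))) := by
    apply Real.rpow_le_rpow_of_exponent_le hn1
    apply neg_le_neg
    rw [hCC]
    apply one_div_le_one_div_of_le hC₁R
    linarith
  have hgap' : (n : ℝ) ^ (-((k : ℝ) / C₁)) ≤ (n : ℝ) ^ (-((k : ℝ) / C)) := by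
    apply Real.rpow_le_rpow_of_exponent_le hn1
    apply neg_le_neg
    rw [hCC]
    apply div_le_div_of_nonneg_left hk0.le hC₁R
    linarith
  have hhalf : (n : ℝ) ^ (-((k : ℝ) / C)) ≤ (n : ℝ) ^ (-(1 / (C : ℝ))) := by
    apply Real.rpow_le_rpow_of_exponent_le hn1
    apply neg_le_neg
    exact div_le_div_of_nonneg_right (by linarith) hC0.le
  have hge2 : (2 : ℝ) ≤ (n : ℝ) ^ ((k : ℝ) / C) := by
    calc (2 : ℝ) ≤ n := hnR
      _ = (n : ℝ) ^ (1 : ℝ) := (Real.rpow_one _).symm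
      _ ≤ (n : ℝ) ^ ((k : ℝ) / C) := by
          apply Real.rpow_le_rpow_of_exponent_le hn1
          rw [le_div_iff₀ hC0]
          linarith
  have hsq : (n : ℝ) ^ ((k : ℝ) / C) * (n : ℝ) ^ ((k : ℝ) / C) = (n : ℝ) ^ ((k : ℝ) / C₁) := by
    rw [← Real.rpow_add hn0]
    congr 1
    rw [hCC]
    field_simp
    ring
  refine ⟨Λ, hΛ, μ, G₀, G₁, p0, p1, hsat, hgap.trans hgap', ?_⟩
  intro P K hP hK I _
  have hP1 : ((P + 1 : ℕ) : ℝ) ≤ (n : ℝ) ^ ((k : ℝ) / C₁) := by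
    push_cast
    rw [← hsq]
    nlinarith
  have hK1 : (K : ℝ) ≤ (n : ℝ) ^ ((k : ℝ) / C₁) := by
    rw [← hsq]
    nlinarith
  have hout : ∀ R : OutMachine (Pairs n) P I, R.Lists K →
      ∑ l, μ l * (if R.output T (adjBits (G₀ l)) ≠ R.output T (adjBits (G₁ l))
        then (1 : ℝ) else 0) ≤ (Fintype.card I : ℝ) * (n : ℝ) ^ (-(1 / (C : ℝ))) := by
    intro R hR
    refine (output_differ T μ p0 (fun l => adjBits (G₀ l)) (fun l => adjBits (G₁ l))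
      ((n : ℝ) ^ (-(1 / (C₁ : ℝ)))) (fun M hM => hadv (P + 1) K hP1 hK1 M hM) R hR).trans ?_
    exact mul_le_mul_of_nonneg_left hone (Nat.cast_nonneg _)
  refine ⟨hout, ?_⟩
  intro Ω _ w hw hw1 R dec hR
  have hpos : (0 : ℝ) ≤ (n : ℝ) ^ (-(1 / (C : ℝ))) := by positivity
  have hcI : (0 : ℝ) ≤ (Fintype.card I : ℝ) := Nat.cast_nonneg _
  refine coupled_red T μ p0 p1 adjBits G₀ G₁ ((Fintype.card I : ℝ) * (n : ℝ) ^ (-(1 / (C : ℝ))))
    ((n : ℝ) ^ (-(1 / (C : ℝ)))) (fun G => ¬ G.CliqueFree k)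
    (CliquesLe (δ * k)) hsat (hgap.trans (hgap'.trans hhalf)) Ω w hw hw1 R dec
    (fun r => by convert hout (R r) (hR r)) _ ?_
  nlinarith [mul_nonneg hcI hpos]

open Classical in
/-- Arbitrary gap ratios, few output bits. -/
theorem total_output : ∃ A : ℕ, 1 ≤ A ∧ ∀ T r k n : ℕ, 1 ≤ T → A ≤ r → r ≤ k →
    ((T : ℝ) * k) ^ ((A : ℝ) * T * k / r) ≤ n →
      ∃ (Λ : Type) (_ : Fintype Λ) (μ : Λ → ℝ) (G₀ G₁ : Λ → SimpleGraph (Fin n)),
        (∀ l, 0 ≤ μ l) ∧ ∑ l, μ l = 1 ∧ (∀ l, ¬ (G₁ l).CliqueFree k) ∧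
        (∑ l, μ l * (if CliquesLe r (G₀ l) then 0 else 1)) ≤ (n : ℝ) ^ (-((r : ℝ) / A)) ∧
        ∀ P K : ℕ, (P : ℝ) ≤ (n : ℝ) ^ ((r : ℝ) / A) → (K : ℝ) ≤ (n : ℝ) ^ ((r : ℝ) / A) →
          ∀ (I : Type) [Fintype I],
          (∀ R : OutMachine (Pairs n) P I, R.Lists K →
            ∑ l, μ l * (if R.output T (adjBits (G₀ l)) ≠ R.output T (adjBits (G₁ l))
              then 1 else 0) ≤ (Fintype.card I : ℝ) * (n : ℝ) ^ (-((r : ℝ) / (A * k)))) ∧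
          ∀ (Ω : Type) [Fintype Ω] (w : Ω → ℝ), (∀ r, 0 ≤ w r) → ∑ r, w r = 1 →
            ∀ (R : Ω → OutMachine (Pairs n) P I) (dec : Ω → (I → Bool) → Bool),
            (∀ r, (R r).Lists K) → ∃ G : SimpleGraph (Fin n),
              (¬ G.CliqueFree k ∧ prAns w R dec T (adjBits G) true ≤
                1 / 2 + ((Fintype.card I : ℝ) + 1) * (n : ℝ) ^ (-((r : ℝ) / (A * k)))) ∨
              (CliquesLe r G ∧ prAns w R dec T (adjBits G) false ≤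
                1 / 2 + ((Fintype.card I : ℝ) + 1) * (n : ℝ) ^ (-((r : ℝ) / (A * k)))) := by
  obtain ⟨A₀, hA₀, H⟩ := gap_output_explicit
  refine ⟨2 * A₀, by omega, ?_⟩
  intro T r k n hT hr hrk hn
  have hA₀R : (1 : ℝ) ≤ A₀ := by exact_mod_cast hA₀
  have hTR : (1 : ℝ) ≤ T := by exact_mod_cast hT
  have hr1 : 1 ≤ r := by omega
  have hrR : (1 : ℝ) ≤ r := by exact_mod_cast hr1
  have hrkR : (r : ℝ) ≤ k := by exact_mod_cast hrk
  have hr0 : (0 : ℝ) < r := by linarith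
  have hk0 : (0 : ℝ) < k := by linarith
  have hA0 : (0 : ℝ) < A₀ := by linarith
  push_cast at hn ⊢
  obtain ⟨C, hC1, hCA, hH⟩ := H ((r : ℝ) / k) (by positivity) (by rw [div_le_one hk0]; exact hrkR)
  have hC0 : (0 : ℝ) < C := by exact_mod_cast (by omega : 0 < C)
  have hCA' : (C : ℝ) * r ≤ A₀ * k := by
    rw [div_div_eq_mul_div, le_div_iff₀ hr0] at hCA
    exact hCA
  have hCk : C ≤ k := by
    have h1 : (A₀ : ℝ) ≤ r := by exact_mod_cast (by omega : A₀ ≤ r)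
    have h2 : (C : ℝ) * A₀ ≤ k * A₀ := by
      calc (C : ℝ) * A₀ ≤ C * r := mul_le_mul_of_nonneg_left h1 hC0.le
        _ ≤ A₀ * k := hCA'
        _ = k * A₀ := mul_comm _ _
    exact_mod_cast le_of_mul_le_mul_right h2 hA0
  have hTk1 : (1 : ℝ) ≤ (T : ℝ) * k := by nlinarith
  have hcond : (C * T * k) ^ (C * T) ≤ n := by
    have h1 : ((C * T * k : ℕ) : ℝ) ≤ ((T : ℝ) * k) ^ 2 := by
      push_cast
      have h2 : (C : ℝ) ≤ k := by exact_mod_cast hCk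
      calc (C : ℝ) * T * k ≤ k * T * k := by
            apply mul_le_mul_of_nonneg_right _ hk0.le
            exact mul_le_mul_of_nonneg_right h2 (by linarith)
        _ = (T * k * k) * 1 := by ring
        _ ≤ (T * k * k) * T := mul_le_mul_of_nonneg_left hTR (by positivity)
        _ = ((T : ℝ) * k) ^ 2 := by ring
    have h3 : (((C * T * k) ^ (C * T) : ℕ) : ℝ) ≤ n := by
      calc (((C * T * k) ^ (C * T) : ℕ) : ℝ) = ((C * T * k : ℕ) : ℝ) ^ (C * T) := by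
            push_cast; ring
        _ ≤ (((T : ℝ) * k) ^ 2) ^ (C * T) := pow_le_pow_left₀ (Nat.cast_nonneg _) h1 _
        _ = ((T : ℝ) * k) ^ (((2 * (C * T) : ℕ)) : ℝ) := by
            rw [Real.rpow_natCast, ← pow_mul]
        _ ≤ ((T : ℝ) * k) ^ (2 * (A₀ : ℝ) * T * k / r) := by
            apply Real.rpow_le_rpow_of_exponent_le hTk1
            rw [le_div_iff₀ hr0]
            push_cast
            nlinarith
        _ ≤ n := hn
    exact_mod_cast h3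
  obtain ⟨Λ, hΛ, μ, G₀, G₁, p0, p1, hsat, hgap, hadv⟩ := hH T k n hT hCk hcond
  have hn1 : (1 : ℝ) ≤ n := by
    refine le_trans ?_ hn
    exact Real.one_le_rpow hTk1 (by positivity)
  have hrk' : (r : ℝ) / k * k = r := div_mul_cancel₀ _ hk0.ne'
  rw [hrk'] at hgap hadv
  have e1 : (r : ℝ) / (2 * A₀) ≤ k / C := by
    rw [div_le_div_iff₀ (by positivity) hC0]
    have : (0 : ℝ) ≤ A₀ * k := by positivity
    nlinarith
  have e2 : (r : ℝ) / (2 * A₀ * k) ≤ 1 / C := by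
    rw [div_le_div_iff₀ (by positivity) hC0]
    have : (0 : ℝ) ≤ A₀ * k := by positivity
    nlinarith
  have m1 : (n : ℝ) ^ ((r : ℝ) / (2 * A₀)) ≤ (n : ℝ) ^ ((k : ℝ) / C) :=
    Real.rpow_le_rpow_of_exponent_le hn1 e1
  have m2 : (n : ℝ) ^ (-((k : ℝ) / C)) ≤ (n : ℝ) ^ (-((r : ℝ) / (2 * A₀))) :=
    Real.rpow_le_rpow_of_exponent_le hn1 (neg_le_neg e1)
  have m3 : (n : ℝ) ^ (-(1 / (C : ℝ))) ≤ (n : ℝ) ^ (-((r : ℝ) / (2 * A₀ * k))) :=
    Real.rpow_le_rpow_of_exponent_le hn1 (neg_le_neg e2)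
  refine ⟨Λ, hΛ, μ, G₀, G₁, p0, p1, hsat, hgap.trans m2, fun P K hP hK I _ => ?_⟩
  obtain ⟨h1, h2⟩ := hadv P K (hP.trans m1) (hK.trans m1) I
  have hcI : (0 : ℝ) ≤ (Fintype.card I : ℝ) := Nat.cast_nonneg _
  refine ⟨fun R hR => (h1 R hR).trans (mul_le_mul_of_nonneg_left m3 hcI),
    fun Ω _ w hw hw1 R dec hR => ?_⟩
  obtain ⟨G, hG⟩ := h2 Ω w hw hw1 R dec hR
  have m4 := mul_le_mul_of_nonneg_left m3 (by linarith : (0 : ℝ) ≤ (Fintype.card I : ℝ) + 1)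
  refine ⟨G, ?_⟩
  rcases hG with ⟨h3, h4⟩ | ⟨h3, h4⟩
  · exact Or.inl ⟨h3, by linarith⟩
  · exact Or.inr ⟨h3, by linarith⟩

end Pool.Agent.R943.TR
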