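import Mathlib
import Pool.Agent.R943.TR.Out
import Pool.Agent.W980.GR.MOne

/-!
Parallel reductions of the clique problem with an arbitrary gap to the satisfiability of short
formulas (after `Pool.Agent.W980.GR.MOne` and `Pool.Agent.W980.GT.Total`).
-/

set_option linter.unusedSectionVars false

namespace Pool.Agent.R943.TR

open Finset DomAC0 Filter Topology Pool.Agent.H72.Clq Pool.Agent.W980.GC Pool.Agent.W980.GR
open Pool.Agent.W964.Pram hiding push push_sum push_total push_nonneg push_ne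

open Classical in
theorem total_red (s c f g : ℕ → ℕ) (d : ℕ) (hs : ∀ r, r ≤ s r)
    (hc : Tendsto (fun r : ℕ => (c r : ℝ) / r) atTop (𝓝 0)) (T : ℕ → ℕ → ℕ)
    (hT1 : ∀ r n, 1 ≤ T r n)
    (hT : ∀ r, Tendsto (fun n : ℕ => (T r n : ℝ) * Real.log (Real.log n) / Real.log n)
      atTop (𝓝 0)) :
    ∀ᶠ r : ℕ in atTop, ∃ α : ℝ, 0 < α ∧ ∀ᶠ n : ℕ in atTop, ∀ P K v q : ℕ,
      P ≤ f r * n ^ c r → K ≤ f r * n ^ c r → v ≤ g r * (Nat.log 2 (f r * n ^ c r) + 1) →
      (q : ℝ) ≤ (n : ℝ) ^ α →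
      ∀ (Ω : Type) [Fintype Ω] (w : Ω → ℝ), (∀ ω, 0 ≤ w ω) → ∑ ω, w ω = 1 →
        ∀ (R : Ω → OutMachine (Pairs n) P (Fin q × Clause v d))
          (ev : Ω → (Fin q → Bool) → Bool), (∀ ω, (R ω).Lists K) →
          ∃ G : SimpleGraph (Fin n),
            (¬ G.CliqueFree (s r) ∧
              prAns w R (fun ω => evalSat (ev ω)) (T r n) (adjBits G) true ≤
              1 / 2 + (n : ℝ) ^ (-α)) ∨
            (CliquesLe r G ∧
              prAns w R (fun ω => evalSat (ev ω)) (T r n) (adjBits G) false ≤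
              1 / 2 + (n : ℝ) ^ (-α)) := by
  obtain ⟨A, hA1, H⟩ := total_output
  have hAR : (1 : ℝ) ≤ A := by exact_mod_cast hA1
  have hA0 : (0 : ℝ) < A := by linarith
  have h1 : ∀ᶠ r : ℕ in atTop, (c r : ℝ) / r < 1 / (2 * A) := hc.eventually_lt_const (by positivity)
  filter_upwards [h1, eventually_ge_atTop A] with r hgr hrA
  have hr1 : 1 ≤ r := hA1.trans hrA
  have hrR : (0 : ℝ) < r := by exact_mod_cast hr1
  have hs1 : 1 ≤ s r := hr1.trans (hs r)
  have hsR : (1 : ℝ) ≤ s r := by exact_mod_cast hs1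
  have hs0 : (0 : ℝ) < s r := by linarith
  have hgr' : (c r : ℝ) ≤ r / (2 * A) := by
    rw [div_lt_div_iff₀ hrR (by positivity)] at hgr
    rw [le_div_iff₀ (by positivity)]
    linarith
  obtain ⟨α, hα⟩ : ∃ α : ℝ, α = (r : ℝ) / (4 * A * s r) := ⟨_, rfl⟩
  have hα0 : 0 < α := by rw [hα]; positivity
  have hα4 : (r : ℝ) / (A * s r) = 4 * α := by
    rw [hα]
    field_simp
  refine ⟨α, hα0, ?_⟩
  have hpw : Tendsto (fun n : ℕ => (n : ℝ) ^ ((r : ℝ) / (2 * A))) atTop atTop :=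
    (tendsto_rpow_atTop (by positivity)).comp tendsto_natCast_atTop_atTop
  have hAs : 1 ≤ A * s r := Nat.mul_pos (by omega) (by omega)
  filter_upwards [ev_time (A * s r) 1 hAs (T r) (hT r), hpw.eventually_ge_atTop (f r : ℝ),
    ev_bits (f r) (g r) (c r) d (2 * α) (by positivity), eventually_ge_atTop 1]
    with n hn hf hb hn1
  have hnR : (1 : ℝ) ≤ n := by exact_mod_cast hn1
  have hn0 : (0 : ℝ) < n := by linarith
  have hTR : (1 : ℝ) ≤ T r n := by exact_mod_cast hT1 r n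
  have hbd : ((f r * n ^ c r : ℕ) : ℝ) ≤ (n : ℝ) ^ ((r : ℝ) / A) := by
    push_cast
    calc (f r : ℝ) * (n : ℝ) ^ c r
        ≤ (n : ℝ) ^ ((r : ℝ) / (2 * A)) * (n : ℝ) ^ ((r : ℝ) / (2 * A)) := by
          refine mul_le_mul hf ?_ (by positivity) (by positivity)
          rw [← Real.rpow_natCast]
          exact Real.rpow_le_rpow_of_exponent_le hnR hgr'
      _ = (n : ℝ) ^ ((r : ℝ) / A) := by
          rw [← Real.rpow_add hn0]
          congr 1
          field_simp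
          ring
  have hcond : ((T r n : ℝ) * s r) ^ ((A : ℝ) * T r n * s r / r) ≤ n := by
    have hb : (1 : ℝ) ≤ (T r n : ℝ) * s r := by nlinarith
    have h2 : (((A * s r * T r n * 1) ^ (A * s r * T r n) : ℕ) : ℝ) ≤ n := by exact_mod_cast hn
    refine le_trans ?_ h2
    have h3 : ((T r n : ℝ) * s r) ≤ ((A * s r * T r n * 1 : ℕ) : ℝ) := by
      push_cast
      have : (0 : ℝ) ≤ (T r n : ℝ) * s r := by linarith
      nlinarith
    have h4 : (A : ℝ) * T r n * s r / r ≤ ((A * s r * T r n : ℕ) : ℝ) := by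
      rw [div_le_iff₀ hrR]
      push_cast
      have h5 : (1 : ℝ) ≤ r := by exact_mod_cast hr1
      have h6 : (0 : ℝ) ≤ (A : ℝ) * T r n * s r := by positivity
      nlinarith
    calc ((T r n : ℝ) * s r) ^ ((A : ℝ) * T r n * s r / r)
        ≤ ((T r n : ℝ) * s r) ^ ((A * s r * T r n : ℕ) : ℝ) :=
          Real.rpow_le_rpow_of_exponent_le hb h4
      _ = ((T r n : ℝ) * s r) ^ (A * s r * T r n) := Real.rpow_natCast _ _
      _ ≤ ((A * s r * T r n * 1 : ℕ) : ℝ) ^ (A * s r * T r n) :=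
          pow_le_pow_left₀ (by linarith) h3 _
      _ = _ := by push_cast; ring
  intro P K v q hP hK hv hq Ω _ w hw hw1 R ev hR
  obtain ⟨Λ, hΛ, μ, G₀, G₁, _, _, _, _, h⟩ := H (T r n) r (s r) n (hT1 r n) hrA (hs r) hcond
  have hPR : (P : ℝ) ≤ (n : ℝ) ^ ((r : ℝ) / A) := by
    refine le_trans ?_ hbd
    exact_mod_cast hP
  have hKR : (K : ℝ) ≤ (n : ℝ) ^ ((r : ℝ) / A) := by
    refine le_trans ?_ hbd
    exact_mod_cast hK
  obtain ⟨G, hG⟩ := (h P K hPR hKR (Fin q × Clause v d)).2 Ω w hw hw1 R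
    (fun ω => evalSat (ev ω)) hR
  rw [hα4] at hG
  have hI : ((Fintype.card (Fin q × Clause v d) : ℝ) + 1) * (n : ℝ) ^ (-(4 * α)) ≤
      (n : ℝ) ^ (-α) := by
    have h1 : (Fintype.card (Fin q × Clause v d) : ℝ) + 1 ≤ (n : ℝ) ^ (3 * α) := by
      have h2 : (Fintype.card (Fin q × Clause v d) : ℝ) ≤ q * ((2 * v + 1) ^ d : ℕ) := by
        rw [Fintype.card_prod, Fintype.card_fin]
        have := Nat.mul_le_mul_left q (card_clause v d)
        exact_mod_cast this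
      have h3 := hb v hv
      have h4 : (1 : ℝ) ≤ (n : ℝ) ^ α := Real.one_le_rpow hnR hα0.le
      have h5 : ((2 * v + 1) ^ d : ℕ) + (1 : ℝ) ≤ (n : ℝ) ^ (2 * α) := by
        exact_mod_cast h3
      have h6 : (0 : ℝ) ≤ (((2 * v + 1) ^ d : ℕ) : ℝ) := Nat.cast_nonneg _
      calc (Fintype.card (Fin q × Clause v d) : ℝ) + 1 ≤ q * ((2 * v + 1) ^ d : ℕ) + 1 := by
            linarith
        _ ≤ (n : ℝ) ^ α * ((2 * v + 1) ^ d : ℕ) + (n : ℝ) ^ α * 1 := by
            have := mul_le_mul_of_nonneg_right hq h6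
            linarith
        _ = (n : ℝ) ^ α * (((2 * v + 1) ^ d : ℕ) + 1) := by ring
        _ ≤ (n : ℝ) ^ α * (n : ℝ) ^ (2 * α) := mul_le_mul_of_nonneg_left h5 (by positivity)
        _ = (n : ℝ) ^ (3 * α) := by
            rw [← Real.rpow_add hn0]
            congr 1
            ring
    calc ((Fintype.card (Fin q × Clause v d) : ℝ) + 1) * (n : ℝ) ^ (-(4 * α))
        ≤ (n : ℝ) ^ (3 * α) * (n : ℝ) ^ (-(4 * α)) :=
          mul_le_mul_of_nonneg_right h1 (by positivity)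
      _ = (n : ℝ) ^ (-α) := by
          rw [← Real.rpow_add hn0]
          congr 1
          ring
  refine ⟨G, ?_⟩
  rcases hG with ⟨h2, h3⟩ | ⟨h2, h3⟩
  · exact Or.inl ⟨h2, by linarith⟩
  · exact Or.inr ⟨h2, by linarith⟩

open Classical in
/-- There are no many-one reductions, for any gap. -/
theorem total_many_one (s c f g : ℕ → ℕ) (d : ℕ) (hs : ∀ r, r ≤ s r)
    (hc : Tendsto (fun r : ℕ => (c r : ℝ) / r) atTop (𝓝 0)) (T : ℕ → ℕ → ℕ)
    (hT1 : ∀ r n, 1 ≤ T r n)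
    (hT : ∀ r, Tendsto (fun n : ℕ => (T r n : ℝ) * Real.log (Real.log n) / Real.log n)
      atTop (𝓝 0)) :
    ∀ᶠ r : ℕ in atTop, ∀ᶠ n : ℕ in atTop, ∀ P K v : ℕ,
      P ≤ f r * n ^ c r → K ≤ f r * n ^ c r → v ≤ g r * (Nat.log 2 (f r * n ^ c r) + 1) →
      ∀ R : OutMachine (Pairs n) P (Clause v d), R.Lists K →
        ∃ G : SimpleGraph (Fin n),
          (¬ G.CliqueFree (s r) ∧ ¬ Sat (R.output (T r n) (adjBits G))) ∨
          (CliquesLe r G ∧ Sat (R.output (T r n) (adjBits G))) := by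
  filter_upwards [total_red s c f g d hs hc T hT1 hT] with r hr
  obtain ⟨α, hα, H⟩ := hr
  have hα4 : ∀ᶠ n : ℕ in atTop, (4 : ℝ) ≤ (n : ℝ) ^ α :=
    ((tendsto_rpow_atTop hα).comp tendsto_natCast_atTop_atTop).eventually_ge_atTop 4
  filter_upwards [H, hα4, eventually_ge_atTop 1] with n hn h4 hn1
  intro P K v hP hK hv R hR
  have hn0 : (0 : ℝ) < n := by exact_mod_cast hn1
  obtain ⟨R', hR'⟩ : ∃ R' : OutMachine (Pairs n) P (Fin 1 × Clause v d),
    R' = ⟨R.M, fun i => R.L i.2, fun i => R.sel i.2⟩ := ⟨_, rfl⟩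
  have hR'l : R'.Lists K := by
    rw [hR']
    exact ⟨hR.1, fun i => hR.2 i.2⟩
  have hout : ∀ x c, R'.output (T r n) x (0, c) = R.output (T r n) x c := by
    intro x c
    rw [hR']
    rfl
  have hsm : (n : ℝ) ^ (-α) ≤ 1 / 4 := by
    rw [Real.rpow_neg hn0.le, ← one_div]
    exact one_div_le_one_div_of_le (by norm_num) h4
  obtain ⟨G, hG⟩ := hn P K v 1 hP hK hv (by push_cast; linarith) Unit (fun _ => 1)
    (fun _ => zero_le_one) (by simp) (fun _ => R') (fun _ b => b 0) (fun _ => hR'l)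
  refine ⟨G, ?_⟩
  have hev : evalSat (fun b : Fin 1 → Bool => b 0) (R'.output (T r n) (adjBits G)) =
      decide (Sat (R.output (T r n) (adjBits G))) := by
    unfold evalSat
    simp only [hout]
  unfold prAns at hG
  simp only [Finset.univ_unique, Finset.sum_singleton, hev] at hG
  rcases hG with ⟨h1, h2⟩ | ⟨h1, h2⟩
  · refine Or.inl ⟨h1, fun hsat => ?_⟩
    rw [if_pos (by rw [decide_eq_true_eq]; exact hsat)] at h2
    linarith
  · refine Or.inr ⟨h1, ?_⟩
    by_contra hsat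
    rw [if_pos (by rw [decide_eq_false_iff_not]; exact hsat)] at h2
    linarith

end Pool.Agent.R943.TR
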