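import Mathlib
import Pool.Agent.R943.TR.Out
import Pool.Agent.R943.TR.MOne

/-!
# No parallel reductions from the clique problem with an arbitrary gap to `M[1]`

The reductions are computed by ideal parallel machines (priority CRCW PRAMs with arbitrary
instruction set, unbounded words and memory, and even with list searches as single steps).

* First part: for all `r ≤ k` (with `r` at least an absolute constant `A`) there are random pairs
  of graphs `(G₀, G₁)` such that `G₁` has a `k`-clique and (almost surely) all cliques of `G₀` have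
  at most `r` vertices, and every such machine with `n ^ (r / A)` processors and with `N` output
  bits gives the same output for `G₀` and `G₁` except with probability `N * n ^ (-r / (A * k))`.
  Hence no randomised reduction to any problem, with short outputs, separates the graphs with a
  `k`-clique from the graphs without cliques of more than `r` vertices.
* Second part: for every function `s` with `r ≤ s(r)`, all exponents `c(r) = o(r)` and parallel
  time `o(log n / log log n)`, there are no randomised truth-table reductions with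
  `f(r) * n ^ c(r)` processors from the problem to separate the graphs with an `s(r)`-clique from
  the graphs whose cliques have at most `r` vertices to the satisfiability of formulas with at most
  `d` literals per clause and with at most `g(r) * log (f(r) * n ^ c(r))` variables.
* Third part: the same for many-one reductions.
-/

namespace Pool.Agent.Results.MP_ddf912_lc.TotalGapReductions

open DomAC0 Filter Topology Pool.Agent.H72.Clq Pool.Agent.W980.GR

open Classical in
theorem result :
    (∃ A : ℕ, 1 ≤ A ∧ ∀ T r k n : ℕ, 1 ≤ T → A ≤ r → r ≤ k →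
      ((T : ℝ) * k) ^ ((A : ℝ) * T * k / r) ≤ n →
        ∃ (Λ : Type) (_ : Fintype Λ) (μ : Λ → ℝ) (G₀ G₁ : Λ → SimpleGraph (Fin n)),
          (∀ l, 0 ≤ μ l) ∧ ∑ l, μ l = 1 ∧ (∀ l, ¬ (G₁ l).CliqueFree k) ∧
          (∑ l, μ l * (if CliquesLe r (G₀ l) then 0 else 1)) ≤ (n : ℝ) ^ (-((r : ℝ) / A)) ∧
          ∀ P K : ℕ, (P : ℝ) ≤ (n : ℝ) ^ ((r : ℝ) / A) → (K : ℝ) ≤ (n : ℝ) ^ ((r : ℝ) / A) →
            ∀ (I : Type) [Fintype I],
            (∀ R : OutMachine (Pairs n) P I, R.Lists K →
              ∑ l, μ l * (if R.output T (adjBits (G₀ l)) ≠ R.output T (adjBits (G₁ l))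
                then 1 else 0) ≤ (Fintype.card I : ℝ) * (n : ℝ) ^ (-((r : ℝ) / (A * k)))) ∧
            ∀ (Ω : Type) [Fintype Ω] (w : Ω → ℝ), (∀ ω, 0 ≤ w ω) → ∑ ω, w ω = 1 →
              ∀ (R : Ω → OutMachine (Pairs n) P I) (dec : Ω → (I → Bool) → Bool),
              (∀ ω, (R ω).Lists K) → ∃ G : SimpleGraph (Fin n),
                (¬ G.CliqueFree k ∧ prAns w R dec T (adjBits G) true ≤
                  1 / 2 + ((Fintype.card I : ℝ) + 1) * (n : ℝ) ^ (-((r : ℝ) / (A * k)))) ∨
                (CliquesLe r G ∧ prAns w R dec T (adjBits G) false ≤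
                  1 / 2 + ((Fintype.card I : ℝ) + 1) * (n : ℝ) ^ (-((r : ℝ) / (A * k))))) ∧
    (∀ (s c f g : ℕ → ℕ) (d : ℕ), (∀ r, r ≤ s r) →
      Tendsto (fun r : ℕ => (c r : ℝ) / r) atTop (𝓝 0) →
      ∀ T : ℕ → ℕ → ℕ, (∀ r n, 1 ≤ T r n) →
      (∀ r, Tendsto (fun n : ℕ => (T r n : ℝ) * Real.log (Real.log n) / Real.log n)
        atTop (𝓝 0)) →
      ∀ᶠ r : ℕ in atTop, ∃ α : ℝ, 0 < α ∧ ∀ᶠ n : ℕ in atTop, ∀ P K v q : ℕ,
        P ≤ f r * n ^ c r → K ≤ f r * n ^ c r → v ≤ g r * (Nat.log 2 (f r * n ^ c r) + 1) →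
        (q : ℝ) ≤ (n : ℝ) ^ α →
        ∀ (Ω : Type) [Fintype Ω] (w : Ω → ℝ), (∀ ω, 0 ≤ w ω) → ∑ ω, w ω = 1 →
          ∀ (R : Ω → OutMachine (Pairs n) P (Fin q × Clause v d))
            (ev : Ω → (Fin q → Bool) → Bool), (∀ ω, (R ω).Lists K) →
            ∃ G : SimpleGraph (Fin n),
              (¬ G.CliqueFree (s r) ∧
                prAns w R (fun ω => evalSat (ev ω)) (T r n) (adjBits G) true ≤
                1 / 2 + (n : ℝ) ^ (-α)) ∨
              (CliquesLe r G ∧
                prAns w R (fun ω => evalSat (ev ω)) (T r n) (adjBits G) false ≤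
                1 / 2 + (n : ℝ) ^ (-α))) ∧
    (∀ (s c f g : ℕ → ℕ) (d : ℕ), (∀ r, r ≤ s r) →
      Tendsto (fun r : ℕ => (c r : ℝ) / r) atTop (𝓝 0) →
      ∀ T : ℕ → ℕ → ℕ, (∀ r n, 1 ≤ T r n) →
      (∀ r, Tendsto (fun n : ℕ => (T r n : ℝ) * Real.log (Real.log n) / Real.log n)
        atTop (𝓝 0)) →
      ∀ᶠ r : ℕ in atTop, ∀ᶠ n : ℕ in atTop, ∀ P K v : ℕ,
        P ≤ f r * n ^ c r → K ≤ f r * n ^ c r → v ≤ g r * (Nat.log 2 (f r * n ^ c r) + 1) →
        ∀ R : OutMachine (Pairs n) P (Clause v d), R.Lists K →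
          ∃ G : SimpleGraph (Fin n),
            (¬ G.CliqueFree (s r) ∧ ¬ Sat (R.output (T r n) (adjBits G))) ∨
            (CliquesLe r G ∧ Sat (R.output (T r n) (adjBits G)))) :=
  ⟨Pool.Agent.R943.TR.total_output,
    fun s c f g d hs hc T hT1 hT => Pool.Agent.R943.TR.total_red s c f g d hs hc T hT1 hT,
    fun s c f g d hs hc T hT1 hT => Pool.Agent.R943.TR.total_many_one s c f g d hs hc T hT1 hT⟩

end Pool.Agent.Results.MP_ddf912_lc.TotalGapReductions
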